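import Pool.Agent.Y481.DR.Exact
import Pool.Agent.Y481.DX.Defs

/-!
# Job DX-EXDX + MIRDX (helper274): the exact formula for the ring of trees with its phase

Variant of the norm version by helper317, helper624, helper407, helper785.
-/

set_option autoImplicit false

namespace Pool.Agent.Y274.DX

section EXP

open Finset Filter Topology Pool.Agent.Y472 Pool.Agent.H550R3.Jones
open Pool.Agent.W711.HT hiding XX
open Pool.Agent.Y481.DR
open Pool.Agent.Y317.DR
open Pool.Agent.Y967.CB (PH PH_zero PH_diff prod_diff wE_diff chi vN_ne vN_pow trace_split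
  smul_list diff_list diff_mul diff_trace pI_add pI_high pH_sq ph_zero diag_mul_diag_apply
  ph_eq ph_eq' cb_eq cb_eq' ta_eq ta_eq' kap PHc chi_zero chi_deriv sum_odd gf gf_zero gf_deriv
  tendsto_real cb_ne norm_vN kap_diff kap_norm)
open scoped Real

/-- the exact formula with the phase -/
theorem expc (hTRP : S_TRP) (N : ℕ) (ls : List (PV × PV)) (m : ℤ) (hN : 2 ≤ N)
    (hGD : ∀ d ∈ ls, GDP N d.1.1 (fun i j => d.1.2.2 * cV N d.1.2.1 i j) ∧
      GDP N d.2.1 (fun i j => d.2.2.2 * cV N d.2.2.1 i j)) :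
    JP N (vN N) (-1) m (pls ls) = vN N ^ (4 * m) * CC ls * ES N (vls ls) m := by
  have hG' : ∀ (a : PV) (i j : ℕ), ∃ G : ℂ → ℂ, (i ≤ j → j < N → (DifferentiableAt ℂ G 0 ∧
      G 0 = a.2.2 * cV N a.2.1 i j)) ∧
      (GDP N a.1 (fun i j => a.2.2 * cV N a.2.1 i j) → i ≤ j → j < N →
        ∀ᶠ ε in 𝓝[≠] (0 : ℂ), G ε = gdP (vN N) (-Complex.exp ε) a.1 i j) := by
    intro a i j
    by_cases h : (i ≤ j ∧ j < N) ∧ GDP N a.1 (fun i j => a.2.2 * cV N a.2.1 i j)
    · obtain ⟨G, h1, h2, h3⟩ := h.2 i j h.1.1 h.1.2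
      exact ⟨G, fun _ _ => ⟨h1, h2⟩, fun _ _ _ => h3⟩
    · refine ⟨fun _ => a.2.2 * cV N a.2.1 i j, fun _ _ => ⟨differentiableAt_const _, rfl⟩,
        fun h1 h2 h3 => absurd ⟨⟨h2, h3⟩, h1⟩ h⟩
  choose G hGs hGe using hG'
  have hGd : ∀ a i j, i ≤ j → j < N → DifferentiableAt ℂ (G a i j) 0 :=
    fun a i j h1 h2 => (hGs a i j h1 h2).1
  have hG0 : ∀ a i j, i ≤ j → j < N → G a i j 0 = a.2.2 * cV N a.2.1 i j :=
    fun a i j h1 h2 => (hGs a i j h1 h2).2
  have hRt : Rt N (vN N) := Pool.Agent.Y195.CB.rtv N hN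
  have hv : vN N ≠ 0 := vN_ne N
  -- the values of the polynomial
  have hJ : Tendsto (fun ε : ℂ => JP N (vN N) (-Complex.exp ε) m (pls ls)) (𝓝 0)
      (𝓝 (JP N (vN N) (-1) m (pls ls))) := by
    have h1 : Tendsto (fun ε : ℂ => -Complex.exp ε) (𝓝 0) (𝓝 (-1)) := by
      have h2 : Tendsto (fun ε : ℂ => -Complex.exp ε) (𝓝 0) (𝓝 (-Complex.exp 0)) :=
        (Complex.continuous_exp.tendsto 0).neg
      rwa [Complex.exp_zero] at h2
    exact (c_JP hv N m (pls ls)).tendsto.comp h1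
  -- the sum is equal to its continuation
  have hev : ∀ᶠ ε in 𝓝[≠] (0 : ℂ), ∀ x ∈ ls, ∀ i j : ℕ, i ≤ j → j < N →
      G x.1 i j ε = gdP (vN N) (-Complex.exp ε) x.1.1 i j ∧
      G x.2 i j ε = gdP (vN N) (-Complex.exp ε) x.2.1 i j := by
    have h0 : ∀ x ∈ ls, ∀ᶠ ε in 𝓝[≠] (0 : ℂ), ∀ j ∈ range N, ∀ i ∈ range (j + 1),
        G x.1 i j ε = gdP (vN N) (-Complex.exp ε) x.1.1 i j ∧
        G x.2 i j ε = gdP (vN N) (-Complex.exp ε) x.2.1 i j := by
      intro x hx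
      rw [Filter.eventually_all_finset]
      intro j hj
      rw [Filter.eventually_all_finset]
      intro i hi
      have hj' := Finset.mem_range.mp hj
      have hi' : i ≤ j := by
        have := Finset.mem_range.mp hi
        omega
      exact (hGe x.1 i j (hGD x hx).1 hi' hj').and (hGe x.2 i j (hGD x hx).2 hi' hj')
    have h1 : ∀ᶠ ε in 𝓝[≠] (0 : ℂ), ∀ x ∈ ls, ∀ j ∈ range N, ∀ i ∈ range (j + 1),
        G x.1 i j ε = gdP (vN N) (-Complex.exp ε) x.1.1 i j ∧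
        G x.2 i j ε = gdP (vN N) (-Complex.exp ε) x.2.1 i j := ev_list _ _ _ h0
    filter_upwards [h1] with ε hε x hx i j hij hj
    exact hε x hx j (Finset.mem_range.mpr hj) i (Finset.mem_range.mpr (by omega))
  have hK : ∀ᶠ ε : ℝ in 𝓝[≠] 0, JP N (vN N) (-Complex.exp (ε : ℂ)) m (pls ls) *
      gf N (ε : ℂ) = -(2 * Complex.I) * (kap N m (ε : ℂ) * SS N G ls m (ε : ℂ)) := by
    filter_upwards [tendsto_real.eventually hev, self_mem_nhdsWithin] with ε hε h0
    have hε0 : ε ≠ 0 := h0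
    have hn : ‖-Complex.exp (ε : ℂ)‖ = Real.exp ε := by
      rw [norm_neg, Complex.norm_exp, Complex.ofReal_re]
    have hn1 : ‖-Complex.exp (ε : ℂ)‖ ≠ 1 := by
      rw [hn]
      intro h
      exact hε0 ((Real.exp_eq_one_iff ε).mp h)
    have hl0 : -Complex.exp (ε : ℂ) ≠ 0 := neg_ne_zero.mpr (Complex.exp_ne_zero _)
    have hGl : Gl (-Complex.exp (ε : ℂ)) := ⟨hl0, hn1⟩
    have hT := hTRP N (vN N) (-Complex.exp (ε : ℂ)) hRt hGl (pls ls) m
    rw [sum_eq N hN G ls m (ε : ℂ) hε] at hT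
    rw [hT, gf, SS]
    have hpow : ∀ k : ℕ, k ≠ 0 → cb ((-Complex.exp (ε : ℂ)) ^ k) ≠ 0 := by
      intro k hk
      refine cb_ne (pow_ne_zero _ hl0) ?_
      rw [norm_pow]
      intro h
      exact hn1 ((pow_eq_one_iff_of_nonneg (norm_nonneg _) hk).mp h)
    have hcl : cb (-Complex.exp (ε : ℂ)) ≠ 0 := cb_ne hl0 hn1
    have hcy : cb ((-Complex.exp (ε : ℂ)) ^ N) ≠ 0 := hpow N (by omega)
    have hc3 : cb ((-Complex.exp (ε : ℂ)) ^ (3 * N)) ≠ 0 := hpow (3 * N) (by omega)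
    have hy0 : (-Complex.exp (ε : ℂ)) ^ N ≠ 0 := pow_ne_zero _ hl0
    have e2 : (-Complex.exp (ε : ℂ)) ^ (2 * N) = ((-Complex.exp (ε : ℂ)) ^ N) ^ 2 := by
      rw [← pow_mul]; congr 1; ring
    have e3 : cb ((-Complex.exp (ε : ℂ)) ^ (3 * N)) = cb ((-Complex.exp (ε : ℂ)) ^ N) *
        (((-Complex.exp (ε : ℂ)) ^ N) ^ 2 + 1 + (((-Complex.exp (ε : ℂ)) ^ N) ^ 2)⁻¹) := by
      have : (-Complex.exp (ε : ℂ)) ^ (3 * N) = ((-Complex.exp (ε : ℂ)) ^ N) ^ 3 := by
        rw [← pow_mul]; congr 1; ring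
      rw [this, cb, cb]
      field_simp
      ring
    rw [e3] at hc3
    have hq := right_ne_zero_of_mul hc3
    rw [e2, e3]
    generalize (-Complex.exp (ε : ℂ)) ^ N = y at *
    generalize cb (-Complex.exp (ε : ℂ)) = cl at *
    generalize (∑ p ∈ range N, (wE N m (chi N p ε) * Te N G ls ε (chi N p ε) +
        wE N m (chi N p ε) * He N G ls p ε (chi N p ε) *
          (Complex.exp (-6 * m * N * ε) - 1))) = tot at *
    generalize y ^ 2 + 1 + (y ^ 2)⁻¹ = q at *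
    generalize cb y = cy at *
    field_simp
  -- the derivative
  have hS := SS_deriv hN hGd hG0 ls m
  have hS0 : SS N G ls m 0 = 0 := SS_zero hN ls m
  have hKd : HasDerivAt (fun ε : ℂ => -(2 * Complex.I) * (kap N m ε * SS N G ls m ε))
      (-(2 * Complex.I) * (deriv (kap N m) 0 * SS N G ls m 0 + kap N m 0 *
        (CC ls * (-3 * Complex.I) *
      (∑ p ∈ range N, deriv (fun χ => wE N m χ * TV N (vls ls) χ) (2 * π * p / N) -
      2 * Complex.I * m * N * ∑ p ∈ range N, wE N m (2 * π * p / N) * ThV N (vls ls) p)))) 0 :=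
    ((kap_diff N m).hasDerivAt.mul hS).const_mul _
  have hsl := (hasDerivAt_iff_tendsto_slope.mp hKd).comp tendsto_real
  have hgl := (hasDerivAt_iff_tendsto_slope.mp (gf_deriv N)).comp tendsto_real
  have hJ' : Tendsto (fun ε : ℝ => JP N (vN N) (-Complex.exp (ε : ℂ)) m (pls ls))
      (𝓝[≠] 0) (𝓝 (JP N (vN N) (-1) m (pls ls))) :=
    (hJ.mono_left nhdsWithin_le_nhds).comp tendsto_real
  have hprod := hJ'.mul hgl
  have heq : (slope (fun ε : ℂ => -(2 * Complex.I) * (kap N m ε * SS N G ls m ε)) 0 ∘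
      fun ε : ℝ => (ε : ℂ)) =ᶠ[𝓝[≠] 0] fun ε : ℝ =>
      JP N (vN N) (-Complex.exp (ε : ℂ)) m (pls ls) *
        (slope (gf N) 0 ∘ fun ε : ℝ => (ε : ℂ)) ε := by
    filter_upwards [hK] with ε hε
    simp only [Function.comp, slope, vsub_eq_sub, smul_eq_mul, sub_zero, gf_zero, hS0, mul_zero]
    rw [← hε]
    ring
  have hlim := tendsto_nhds_unique (hsl.congr' heq) hprod
  have hk : kap N m 0 = vN N ^ (4 * m) := by
    rw [kap]
    have e : (-6 * (N : ℂ) * 0 + 9 * Complex.I * N * 0 ^ 2 / (2 * π)) = 0 := by ring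
    rw [e, Complex.exp_zero, mul_one, zpow_mul]
    norm_cast
  rw [hS0, mul_zero, zero_add, hk] at hlim
  have hES : ES N (vls ls) m =
      ∑ p ∈ range N, deriv (fun χ => wE N m χ * TV N (vls ls) χ) (2 * π * p / N) -
      2 * Complex.I * m * N * ∑ p ∈ range N, wE N m (2 * π * p / N) * ThV N (vls ls) p := rfl
  rw [← hES] at hlim
  have hI : Complex.I * Complex.I = -1 := Complex.I_mul_I
  linear_combination (1 / 6 : ℂ) * hlim - (vN N ^ (4 * m) * CC ls * ES N (vls ls) m) * hI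

end EXP

section TPL

open Finset Filter Topology Polynomial
open Pool.Agent.W711.HT (vN un upp Rp kr Ea)
open Pool.Agent.TH563.UV (Tb op XX Eb kb)
open Pool.Agent.TH639.J28 (evb Kt)
open Pool.Agent.Y472 (mx cas uu T2)
open Pool.Agent.Y624.DR
open scoped Real

/-- the divided differences of the polynomial of a tree, with the constant -/
theorem gdp (t : Tb) (N : ℕ) (hN : 2 ≤ N) (ht : t.bl = false) :
    Pool.Agent.Y481.DR.GDP N (PL N t)
      (fun i j => (Complex.I * Kt N t) * Pool.Agent.Y481.DR.cV N (Pool.Agent.Y481.DR.tv t) i j) := by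
  intro i j hij hj
  have hN0 : 0 < N := by omega
  refine ⟨fun ε => DD N (Icc i j).card (Lagrange.nodal (Icc i j)
    (uu (vN N) (-Complex.exp ε))) (PL N t), ?_, ?_, ?_⟩
  · refine DD_diff (PD.prod fun k _ => ?_) _ _ _
    have e : (fun ε => uu (vN N) (-Complex.exp ε) k) =
        fun ε => 2 * Complex.cos (Pool.Agent.Y686.CB.zn N ε k) := by
      funext ε
      exact Pool.Agent.Y686.CB.uu_eq hN0 ε k
    rw [e]
    unfold Pool.Agent.Y686.CB.zn
    fun_prop
  · simp only [Complex.exp_zero]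
    exact value hN t ht hij hj
  · filter_upwards [Pool.Agent.Y686.CB.small_ev hN0, self_mem_nhdsWithin] with ε h2 h3
    have h3' : ε ≠ 0 := h3
    have hinj : Set.InjOn (uu (vN N) (-Complex.exp ε)) (Icc i j) := by
      intro k hk m hm h
      rw [Finset.mem_coe, Finset.mem_Icc] at hk hm
      rw [Pool.Agent.Y686.CB.uu_eq hN0, Pool.Agent.Y686.CB.uu_eq hN0] at h
      exact Pool.Agent.Y686.CB.zn_inj hN0 h3' h2 (by omega) (by omega)
        (mul_left_cancel₀ two_ne_zero h)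
    have hP : (PL N t).natDegree < N := NP_deg hN0 _ _
    exact (DD_eq (Finset.nonempty_Icc.2 hij) hinj hP).symm

end TPL

section MAIN

open Finset Filter Topology Metric
open Pool.Agent.W711.HT hiding XX
open Pool.Agent.Y472
open Pool.Agent.TH563.UV (Tb op XX PB AB kb ngb)
open Pool.Agent.TH639.J28 (Kt)
open Pool.Agent.W719.AR (kp)
open Pool.Agent.Y481.DR
open Pool.Agent.Y481.DX
open scoped Real ComplexConjugate

/-- the constants of the vertices -/
theorem prod_Kt (N : ℕ) : ∀ ts : List (Tb × Tb),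
    (ts.map fun p => (Complex.I * Kt N p.1) * (Complex.I * Kt N p.2)).prod =
      (-1) ^ ts.length * kp N ^ wsl ts * kb N ^ nbl ts *
        ((-1) ^ (N - 1) * (Complex.I * N ^ 2 / (2 * π))) ^ nel ts
  | [] => by simp [wsl, nbl, nel]
  | p :: ts => by
    have ih := prod_Kt N ts
    have hkp : kp N ≠ 0 := by
      have h := Pool.Agent.W803.AR.norm_kp N
      intro h0
      rw [h0, norm_zero] at h
      exact zero_ne_one h
    have e1 : wsl (p :: ts) = p.1.ws + p.2.ws + wsl ts := by simp [wsl]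
    have e2 : nbl (p :: ts) = p.1.nb + p.2.nb + nbl ts := by simp [nbl]
    have e3 : nel (p :: ts) = p.1.ne + p.2.ne + nel ts := by simp [nel]
    rw [List.map_cons, List.prod_cons, ih, e1, e2, e3, List.length_cons, zpow_add₀ hkp,
      zpow_add₀ hkp, pow_add, pow_add, pow_add, pow_add, pow_succ]
    unfold Kt
    have hI : Complex.I * Complex.I = -1 := Complex.I_mul_I
    linear_combination ((-1) ^ ts.length * kp N ^ wsl ts * kb N ^ nbl ts *
        ((-1) ^ (N - 1) * (Complex.I * N ^ 2 / (2 * π))) ^ nel ts * (kp N ^ p.1.ws * kb N ^ p.1.nb *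
        ((-1) ^ (N - 1) * (Complex.I * N ^ 2 / (2 * π))) ^ p.1.ne) * (kp N ^ p.2.ws *
        kb N ^ p.2.nb * ((-1) ^ (N - 1) * (Complex.I * N ^ 2 / (2 * π))) ^ p.2.ne)) * hI

/-- EXDX -/
theorem exdx : S_EXDX := by
  intro N ts m hN hts hno
  let d : Tb × Tb → PV × PV := fun p =>
    ((Pool.Agent.Y624.DR.PL N p.1, tv p.1, Complex.I * Kt N p.1),
      (Pool.Agent.Y624.DR.PL N p.2, tv p.2, Complex.I * Kt N p.2))
  have h1 := expc Pool.Agent.Y484.DR.trp N (ts.map d) m hN (by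
    intro x hx
    obtain ⟨p, hp, rfl⟩ := List.mem_map.1 hx
    exact ⟨gdp p.1 N hN (hno p hp).1, gdp p.2 N hN (hno p hp).2⟩)
  have h2 : JD ts m N (vN N) = JP N (vN N) (-1) m (Pool.Agent.Y317.DR.pls (ts.map d)) := by
    apply Pool.Agent.Y884.DR.jpd N ts _ m hN
    unfold Pool.Agent.Y317.DR.pls
    rw [List.map_map, List.forall₂_map_right_iff, List.forall₂_same]
    intro p hp
    exact ⟨(Pool.Agent.Y624.DR.op_PL hN p.1).symm, (Pool.Agent.Y624.DR.op_PL hN p.2).symm⟩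
  have h3 : Pool.Agent.Y317.DR.CC (ts.map d) = (-1) ^ ts.length * kp N ^ wsl ts * kb N ^ nbl ts *
      ((-1) ^ (N - 1) * (Complex.I * N ^ 2 / (2 * π))) ^ nel ts := by
    rw [← prod_Kt]
    unfold Pool.Agent.Y317.DR.CC
    rw [List.map_map]
    rfl
  have h4 : Pool.Agent.Y317.DR.vls (ts.map d) = tvl ts := by
    unfold Pool.Agent.Y317.DR.vls
    rw [List.map_map]
    rfl
  rw [h2, h1, h3, h4]
  unfold pzD
  ring

theorem inv_of_norm {z : ℂ} (h : ‖z‖ = 1) : (starRingEnd ℂ) z = z⁻¹ := by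
  rw [Complex.inv_def, Complex.normSq_eq_norm_sq, h]
  simp

theorem norm_kb (N : ℕ) : ‖kb N‖ = 1 := by
  unfold Pool.Agent.TH563.UV.kb
  have : (2 * π * Complex.I / N : ℂ) = ((2 * π / N : ℝ) : ℂ) * Complex.I := by
    push_cast
    ring
  rw [this, Complex.norm_exp_ofReal_mul_I]

theorem wsl_ngl (ts : List (Tb × Tb)) : wsl (Pool.Agent.Y785.DR.ngl ts) = -wsl ts := by
  induction ts with
  | nil => simp [wsl, Pool.Agent.Y785.DR.ngl]
  | cons p ts ih =>
    have e1 : wsl (Pool.Agent.Y785.DR.ngl (p :: ts)) = (ngb p.1).ws + (ngb p.2).ws +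
        wsl (Pool.Agent.Y785.DR.ngl ts) := by simp [wsl, Pool.Agent.Y785.DR.ngl]
    have e2 : wsl (p :: ts) = p.1.ws + p.2.ws + wsl ts := by simp [wsl]
    rw [e1, e2, ih, Pool.Agent.TH219.J139.ws_ngb, Pool.Agent.TH219.J139.ws_ngb]
    ring

theorem nbl_ngl (ts : List (Tb × Tb)) : nbl (Pool.Agent.Y785.DR.ngl ts) = nbl ts := by
  induction ts with
  | nil => simp [nbl, Pool.Agent.Y785.DR.ngl]
  | cons p ts ih =>
    have e1 : nbl (Pool.Agent.Y785.DR.ngl (p :: ts)) = (ngb p.1).nb + (ngb p.2).nb +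
        nbl (Pool.Agent.Y785.DR.ngl ts) := by simp [nbl, Pool.Agent.Y785.DR.ngl]
    have e2 : nbl (p :: ts) = p.1.nb + p.2.nb + nbl ts := by simp [nbl]
    rw [e1, e2, ih, Pool.Agent.TH219.J139.nb_ngb, Pool.Agent.TH219.J139.nb_ngb]

/-- MIRDX -/
theorem mirdx : S_MIRDX := by
  intro N ts m hN hts hno
  have h1 : Pool.Agent.Y785.DR.ngl ts ≠ [] := fun h => hts (List.map_eq_nil_iff.mp h)
  have h2 := exdx N (Pool.Agent.Y785.DR.ngl ts) (-m) hN h1 (Pool.Agent.Y785.DR.noC_ngl hno)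
  have h3 := exdx N ts m hN hts hno
  have hgoal : JD (ts.map fun p => (ngb p.1, ngb p.2)) (-m) N (vN N) =
      JD (Pool.Agent.Y785.DR.ngl ts) (-m) N (vN N) := rfl
  rw [hgoal, h2, h3, Pool.Agent.Y785.DR.ES_ngl]
  have hlen : (Pool.Agent.Y785.DR.ngl ts).length = ts.length := by
    unfold Pool.Agent.Y785.DR.ngl
    rw [List.length_map]
  have kpn : conj (kp N) = (kp N)⁻¹ := inv_of_norm (Pool.Agent.W803.AR.norm_kp N)
  have kbn : conj (kb N) = (kb N)⁻¹ := inv_of_norm (norm_kb N)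
  have vn : conj (vN N) = (vN N)⁻¹ := inv_of_norm (Pool.Agent.Y967.CB.norm_vN N)
  have hkb : kb N ≠ 0 := fun h0 => by
    have h := norm_kb N
    rw [h0, norm_zero] at h
    exact zero_ne_one h
  unfold pzD
  rw [wsl_ngl, nbl_ngl, Pool.Agent.Y785.DR.nel_ngl, hlen]
  simp only [map_mul, map_pow, map_zpow₀, map_neg, map_one, map_div₀, Complex.conj_I, map_natCast,
    map_ofNat, Complex.conj_ofReal, kpn, kbn, vn]
  have e1 : vN N ^ (4 * -m) = (vN N)⁻¹ ^ (4 * m) := by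
    rw [inv_zpow', mul_neg]
  have e2 : kp N ^ (-wsl ts) = (kp N)⁻¹ ^ wsl ts := by rw [inv_zpow']
  have e3 : kb N ^ nbl ts = kb N ^ (2 * nbl ts) * (kb N)⁻¹ ^ nbl ts := by
    rw [inv_pow, two_mul, pow_add, mul_assoc, mul_inv_cancel₀ (pow_ne_zero _ hkb), mul_one]
  have e4 : ((-1) ^ (N - 1) * (-Complex.I * (N : ℂ) ^ 2 / (2 * π))) ^ nel ts =
      (-1) ^ nel ts * ((-1) ^ (N - 1) * (Complex.I * N ^ 2 / (2 * π))) ^ nel ts := by
    rw [← mul_pow]
    congr 1
    ring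
  rw [e1, e2, e3, e4]
  ring

end MAIN

end Pool.Agent.Y274.DX
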